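import Mathlib

set_option autoImplicit false

namespace Pool.Agent.Results.MP_037a8f_lc.WplNotStaticCompetitive

/-- Binary trees with keys at the inner nodes. -/
inductive Tree : Type
  | leaf : Tree
  | node (l : Tree) (k : ℕ) (r : Tree) : Tree

/-- The keys of the tree in symmetric order. -/
def inorder : Tree → List ℕ
  | Tree.leaf => []
  | Tree.node l k r => inorder l ++ k :: inorder r

/-- `T` is a binary search tree that stores the keys `1, …, n` in symmetric order. -/
def IsSearchTree (n : ℕ) (T : Tree) : Prop := inorder T = List.range' 1 n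

/-- Depth at which the search for `x` ends; the root has depth `0`. -/
def depth (x : ℕ) : Tree → ℕ
  | Tree.leaf => 0
  | Tree.node l k r =>
    if x < k then depth x l + 1 else if k < x then depth x r + 1 else 0

/-- Rotate `x` over its parent: `none` when `x` is the root (or is not in the tree). -/
def rotateOver (x : ℕ) : Tree → Option Tree
  | Tree.leaf => none
  | Tree.node l k r =>
    if x < k then
      match l with
      | Tree.leaf => none
      | Tree.node a y b =>
        if y = x then some (Tree.node a x (Tree.node b k r))
        else (rotateOver x (Tree.node a y b)).map fun l' => Tree.node l' k r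
    else if k < x then
      match r with
      | Tree.leaf => none
      | Tree.node a y b =>
        if y = x then some (Tree.node (Tree.node l k a) x b)
        else (rotateOver x (Tree.node a y b)).map fun r' => Tree.node l k r'
    else none

/-- The weighted path length `∑ i, f i * (1 + depth i)` over the keys `1, …, n`. -/
def wpl (n : ℕ) (f : ℕ → ℕ) (T : Tree) : ℕ := ∑ i ∈ Finset.Icc 1 n, f i * (1 + depth i T)

/-- The restructuring done by the WPL tree after an access to `x`, for the counters `f`: rotate
`x` over its current parent as long as this strictly decreases the weighted path length. Returns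
the new tree and the number of rotations. -/
def settle (n : ℕ) (f : ℕ → ℕ) (x : ℕ) (T : Tree) : Tree × ℕ :=
  match rotateOver x T with
  | none => (T, 0)
  | some T' =>
    if wpl n f T' < wpl n f T then ((settle n f x T').1, (settle n f x T').2 + 1) else (T, 0)
termination_by wpl n f T

/-- State of the algorithm: access counters, current tree, cost paid so far. -/
structure State where
  /-- access counters -/
  cnt : ℕ → ℕ
  /-- current tree -/
  tree : Tree
  /-- cost so far -/
  cost : ℕ

/-- One access to `x`: pay `1 + depth x`, update the counter of `x`, then restructure, each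
rotation costing `1`. -/
def step (n : ℕ) (s : State) (x : ℕ) : State where
  cnt := Function.update s.cnt x (s.cnt x + 1)
  tree := (settle n (Function.update s.cnt x (s.cnt x + 1)) x s.tree).1
  cost := s.cost + (1 + depth x s.tree)
    + (settle n (Function.update s.cnt x (s.cnt x + 1)) x s.tree).2

/-- Total cost of the WPL tree with initial tree `T₀` on the access sequence `σ`. All counters
start at `0`. -/
def costWPL (n : ℕ) (T₀ : Tree) (σ : List ℕ) : ℕ := (σ.foldl (step n) ⟨fun _ => 0, T₀, 0⟩).cost

/-- Cost of the access sequence `σ` in the fixed tree `S`. -/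
def costStatic (S : Tree) (σ : List ℕ) : ℕ := (σ.map fun x => 1 + depth x S).sum

/-- Least cost of `σ` over all fixed binary search trees on `1, …, n`. -/
noncomputable def optStatic (n : ℕ) (σ : List ℕ) : ℕ :=
  sInf {c | ∃ S, IsSearchTree n S ∧ costStatic S σ = c}

/-! ### Structural weighted path length -/

/-- total weight of the keys -/
def W (f : ℕ → ℕ) : Tree → ℕ
  | Tree.leaf => 0
  | Tree.node l k r => W f l + f k + W f r

/-- structural weighted path length -/
def P (f : ℕ → ℕ) : Tree → ℕ
  | Tree.leaf => 0
  | Tree.node l k r => P f l + P f r + (W f l + f k + W f r)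

/-- strictly sorted -/
def Srt (T : Tree) : Prop := (inorder T).Pairwise (· < ·)

lemma srt_node {l r : Tree} {k : ℕ} : Srt (Tree.node l k r) ↔
    Srt l ∧ Srt r ∧ (∀ a ∈ inorder l, a < k) ∧ (∀ a ∈ inorder r, k < a) := by
  unfold Srt
  rw [inorder, List.pairwise_append, List.pairwise_cons]
  constructor
  · rintro ⟨h1, ⟨h2, h3⟩, h4⟩
    exact ⟨h1, h3, fun a ha => h4 a ha k (by simp), h2⟩
  · rintro ⟨h1, h3, h4, h2⟩
    refine ⟨h1, ⟨h2, h3⟩, fun a ha b hb => ?_⟩
    rcases List.mem_cons.1 hb with rfl | hb
    · exact h4 a ha
    · exact (h4 a ha).trans (h2 b hb)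

lemma W_eq (f : ℕ → ℕ) (T : Tree) : W f T = ((inorder T).map f).sum := by
  induction T with
  | leaf => simp [W, inorder]
  | node l k r ihl ihr => simp [W, inorder, ihl, ihr]; ring

lemma P_eq (f : ℕ → ℕ) (T : Tree) (h : Srt T) :
    P f T = ((inorder T).map fun i => f i * (1 + depth i T)).sum := by
  induction T with
  | leaf => simp [P, inorder]
  | node l k r ihl ihr =>
    obtain ⟨hl, hr, hlk, hrk⟩ := srt_node.1 h
    have e1 : ((inorder l).map fun i => f i * (1 + depth i (Tree.node l k r)))
        = (inorder l).map fun i => f i * (1 + depth i l) + f i := by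
      apply List.map_congr_left
      intro a ha
      rw [depth, if_pos (hlk a ha)]
      ring
    have e2 : ((inorder r).map fun i => f i * (1 + depth i (Tree.node l k r)))
        = (inorder r).map fun i => f i * (1 + depth i r) + f i := by
      apply List.map_congr_left
      intro a ha
      have := hrk a ha
      rw [depth, if_neg (by omega), if_pos this]
      ring
    have e3 : depth k (Tree.node l k r) = 0 := by simp [depth]
    simp only [P, inorder, List.map_append, List.map_cons, List.sum_append, List.sum_cons, e1, e2,
      e3, ihl hl, ihr hr, W_eq, List.sum_map_add]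
    ring

lemma wpl_eq {n : ℕ} (f : ℕ → ℕ) {T : Tree} (h : IsSearchTree n T) : wpl n f T = P f T := by
  have hs : Srt T := by
    unfold Srt
    rw [h]
    exact List.pairwise_lt_range'
  rw [P_eq f T hs, h, wpl]
  have : Finset.Icc 1 n = (List.range' 1 n).toFinset := by
    ext a
    simp only [Finset.mem_Icc, List.mem_toFinset, List.mem_range'_1]
    omega
  rw [this, List.sum_toFinset _ List.nodup_range']

lemma IsSearchTree.srt {n : ℕ} {T : Tree} (h : IsSearchTree n T) : Srt T := by
  unfold Srt
  rw [h]
  exact List.pairwise_lt_range'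

/-! ### Rotations -/

lemma rotateOver_inorder (x : ℕ) (T T' : Tree) (h : rotateOver x T = some T') :
    inorder T' = inorder T := by
  induction T generalizing T' with
  | leaf => simp [rotateOver] at h
  | node l k r ihl ihr =>
    rw [rotateOver.eq_def] at h
    dsimp only at h
    split_ifs at h with h1 h2
    · cases l with
      | leaf => simp at h
      | node a y b =>
        dsimp only at h
        split_ifs at h with h3
        · simp only [Option.some.injEq] at h
          subst h
          subst h3
          simp [inorder]
        · rw [Option.map_eq_some_iff] at h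
          obtain ⟨l', hl', rfl⟩ := h
          rw [inorder, ihl l' hl', inorder]
          simp [inorder]
    · cases r with
      | leaf => simp at h
      | node a y b =>
        dsimp only at h
        split_ifs at h with h3
        · simp only [Option.some.injEq] at h
          subst h
          subst h3
          simp [inorder]
        · rw [Option.map_eq_some_iff] at h
          obtain ⟨r', hr', rfl⟩ := h
          rw [inorder, ihr r' hr', inorder]
          simp [inorder]

/-- A rotation over the parent of a key that outweighs all others decreases the structural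
weighted path length. -/
lemma rotateOver_P_lt (f : ℕ → ℕ) (x : ℕ) (T T' : Tree) (h : rotateOver x T = some T')
    (hd : W f T < 2 * f x) : P f T' < P f T ∧ W f T' = W f T := by
  induction T generalizing T' with
  | leaf => simp [rotateOver] at h
  | node l k r ihl ihr =>
    rw [rotateOver.eq_def] at h
    dsimp only at h
    split_ifs at h with h1 h2
    · cases l with
      | leaf => simp at h
      | node a y b =>
        dsimp only at h
        split_ifs at h with h3
        · simp only [Option.some.injEq] at h
          subst h
          subst h3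
          simp only [W, P] at *
          omega
        · rw [Option.map_eq_some_iff] at h
          obtain ⟨l', hl', rfl⟩ := h
          have := ihl l' hl' (by simp only [W] at *; omega)
          simp only [W, P] at *
          omega
    · cases r with
      | leaf => simp at h
      | node a y b =>
        dsimp only at h
        split_ifs at h with h3
        · simp only [Option.some.injEq] at h
          subst h
          subst h3
          simp only [W, P] at *
          omega
        · rw [Option.map_eq_some_iff] at h
          obtain ⟨r', hr', rfl⟩ := h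
          have := ihr r' hr' (by simp only [W] at *; omega)
          simp only [W, P] at *
          omega

/-- Splitting a tree at `x`. -/
def split (x : ℕ) : Tree → Tree × Tree
  | Tree.leaf => (Tree.leaf, Tree.leaf)
  | Tree.node l k r =>
    if x < k then ((split x l).1, Tree.node (split x l).2 k r)
    else if k < x then (Tree.node l k (split x r).1, (split x r).2)
    else (l, r)

lemma split_node (x : ℕ) (l : Tree) (k : ℕ) (r : Tree) : split x (Tree.node l k r) =
    if x < k then ((split x l).1, Tree.node (split x l).2 k r)
    else if k < x then (Tree.node l k (split x r).1, (split x r).2)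
    else (l, r) := rfl

lemma rotateOver_split (x : ℕ) (T T' : Tree) (h : rotateOver x T = some T') :
    split x T' = split x T := by
  induction T generalizing T' with
  | leaf => simp [rotateOver] at h
  | node l k r ihl ihr =>
    rw [rotateOver.eq_def] at h
    dsimp only at h
    split_ifs at h with h1 h2
    · cases l with
      | leaf => simp at h
      | node a y b =>
        dsimp only at h
        split_ifs at h with h3
        · simp only [Option.some.injEq] at h
          subst h
          subst h3
          simp [split, h1]
        · rw [Option.map_eq_some_iff] at h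
          obtain ⟨l', hl', rfl⟩ := h
          have := ihl l' hl'
          rw [split_node, split_node, this, if_pos h1, if_pos h1]
    · cases r with
      | leaf => simp at h
      | node a y b =>
        dsimp only at h
        split_ifs at h with h3
        · simp only [Option.some.injEq] at h
          subst h
          subst h3
          simp [split, h1, h2]
        · rw [Option.map_eq_some_iff] at h
          obtain ⟨r', hr', rfl⟩ := h
          have := ihr r' hr'
          rw [split_node, split_node, this, if_neg h1, if_neg h1, if_pos h2, if_pos h2]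

lemma rotateOver_none (x : ℕ) (T : Tree) (hs : Srt T) (hx : x ∈ inorder T)
    (h : rotateOver x T = none) : T = Tree.node (split x T).1 x (split x T).2 := by
  induction T with
  | leaf => simp [inorder] at hx
  | node l k r ihl ihr =>
    obtain ⟨hl, hr, hlk, hrk⟩ := srt_node.1 hs
    rw [rotateOver.eq_def] at h
    dsimp only at h
    split_ifs at h with h1 h2
    · exfalso
      have hxl : x ∈ inorder l := by
        rw [inorder, List.mem_append, List.mem_cons] at hx
        rcases hx with hx | rfl | hx
        · exact hx
        · omega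
        · have := hrk x hx; omega
      cases l with
      | leaf => simp [inorder] at hxl
      | node a y b =>
        dsimp only at h
        split_ifs at h with h3
        rw [Option.map_eq_none_iff] at h
        have h4 := ihl hl hxl h
        injection h4 with h5 h6 h7
        exact h3 h6
    · exfalso
      have hxr : x ∈ inorder r := by
        rw [inorder, List.mem_append, List.mem_cons] at hx
        rcases hx with hx | rfl | hx
        · have := hlk x hx; omega
        · omega
        · exact hx
      cases r with
      | leaf => simp [inorder] at hxr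
      | node a y b =>
        dsimp only at h
        split_ifs at h with h3
        rw [Option.map_eq_none_iff] at h
        have h4 := ihr hr hxr h
        injection h4 with h5 h6 h7
        exact h3 h6
    · have : k = x := by omega
      subst this
      simp [split]

lemma split_inorder (x : ℕ) (T : Tree) (hs : Srt T) :
    (∀ a ∈ inorder (split x T).1, a ∈ inorder T ∧ a < x) ∧
    (∀ a ∈ inorder (split x T).2, a ∈ inorder T ∧ x < a) := by
  induction T with
  | leaf => simp [split, inorder]
  | node l k r ihl ihr =>
    obtain ⟨hl, hr, hlk, hrk⟩ := srt_node.1 hs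
    rw [split]
    split_ifs with h1 h2
    · constructor
      · intro a ha
        have := (ihl hl).1 a ha
        exact ⟨by rw [inorder]; simp [this.1], this.2⟩
      · intro a ha
        rw [inorder, List.mem_append, List.mem_cons] at ha
        rcases ha with ha | rfl | ha
        · have := (ihl hl).2 a ha
          exact ⟨by rw [inorder]; simp [this.1], this.2⟩
        · exact ⟨by rw [inorder]; simp, h1⟩
        · exact ⟨by rw [inorder]; simp [ha], h1.trans (hrk a ha)⟩
    · constructor
      · intro a ha
        rw [inorder, List.mem_append, List.mem_cons] at ha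
        rcases ha with ha | rfl | ha
        · exact ⟨by rw [inorder]; simp [ha], (hlk a ha).trans h2⟩
        · exact ⟨by rw [inorder]; simp, h2⟩
        · have := (ihr hr).1 a ha
          exact ⟨by rw [inorder]; simp [this.1], this.2⟩
      · intro a ha
        have := (ihr hr).2 a ha
        exact ⟨by rw [inorder]; simp [this.1], this.2⟩
    · have : k = x := by omega
      subst this
      exact ⟨fun a ha => ⟨by rw [inorder]; simp [ha], hlk a ha⟩,
        fun a ha => ⟨by rw [inorder]; simp [ha], hrk a ha⟩⟩

lemma leaf_of_inorder {T : Tree} (h : ∀ a, a ∉ inorder T) : T = Tree.leaf := by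
  cases T with
  | leaf => rfl
  | node l k r => exact absurd (show k ∈ inorder (Tree.node l k r) by simp [inorder]) (h k)

/-! ### The restructuring -/

lemma settle_inorder (n : ℕ) (f : ℕ → ℕ) (x : ℕ) (T : Tree) :
    inorder (settle n f x T).1 = inorder T := by
  induction h : wpl n f T using Nat.strong_induction_on generalizing T with
  | _ m ih =>
    subst h
    rw [settle]
    split
    · rfl
    · next T' hT' =>
      split_ifs with hlt
      · rw [ih _ hlt T' rfl, rotateOver_inorder x T T' hT']
      · rfl

lemma settle_split (n : ℕ) (f : ℕ → ℕ) (x : ℕ) (T : Tree) :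
    split x (settle n f x T).1 = split x T := by
  induction h : wpl n f T using Nat.strong_induction_on generalizing T with
  | _ m ih =>
    subst h
    rw [settle]
    split
    · rfl
    · next T' hT' =>
      split_ifs with hlt
      · rw [ih _ hlt T' rfl, rotateOver_split x T T' hT']
      · rfl

/-- A key that outweighs all others is moved to the root. -/
lemma settle_dominating {n : ℕ} (f : ℕ → ℕ) (x : ℕ) (T : Tree) (hT : IsSearchTree n T)
    (hx : x ∈ inorder T) (hd : W f T < 2 * f x) :
    (settle n f x T).1 = Tree.node (split x T).1 x (split x T).2 := by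
  induction h : wpl n f T using Nat.strong_induction_on generalizing T with
  | _ m ih =>
    subst h
    rw [settle]
    split
    · next h0 => exact rotateOver_none x T hT.srt hx h0
    · next T' hT' =>
      have hin := rotateOver_inorder x T T' hT'
      have hT2 : IsSearchTree n T' := by unfold IsSearchTree; rw [hin]; exact hT
      have h3 := rotateOver_P_lt f x T T' hT' hd
      have hlt : wpl n f T' < wpl n f T := by
        rw [wpl_eq f hT, wpl_eq f hT2]
        exact h3.1
      rw [if_pos hlt]
      rw [← rotateOver_split x T T' hT']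
      exact ih _ hlt T' hT2 (by rw [hin]; exact hx) (by rw [h3.2]; exact hd) rfl

lemma split_of_lt (x : ℕ) (T : Tree) (h : ∀ a ∈ inorder T, a < x) : (split x T).1 = T := by
  induction T with
  | leaf => rfl
  | node l k r ihl ihr =>
    have h1 : k < x := h k (by simp [inorder])
    rw [split_node, if_neg (by omega), if_pos h1]
    simp only
    rw [ihr fun a ha => h a (by simp [inorder, ha])]

lemma split_of_ge (x : ℕ) (T : Tree) (hs : Srt T) (h : ∀ a ∈ inorder T, x ≤ a) :
    (split x T).1 = Tree.leaf := by
  apply leaf_of_inorder
  intro a ha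
  have h1 := (split_inorder x T hs).1 a ha
  have h2 := h a h1.1
  omega

/-! ### Blocks of accesses -/

/-- state after a sequence of accesses -/
def runs (n : ℕ) (s : State) (σ : List ℕ) : State := σ.foldl (step n) s

lemma runs_append (n : ℕ) (s : State) (σ τ : List ℕ) :
    runs n s (σ ++ τ) = runs n (runs n s σ) τ := List.foldl_append

lemma step_search {n : ℕ} {s : State} (x : ℕ) (h : IsSearchTree n s.tree) :
    IsSearchTree n (step n s x).tree := by
  unfold IsSearchTree at *
  rw [← h]
  exact settle_inorder n _ x s.tree

lemma runs_search {n : ℕ} {s : State} (σ : List ℕ) (h : IsSearchTree n s.tree) :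
    IsSearchTree n (runs n s σ).tree := by
  induction σ generalizing s with
  | nil => exact h
  | cons x σ ih => exact ih (step_search x h)

lemma step_split (n : ℕ) (s : State) (x : ℕ) : split x (step n s x).tree = split x s.tree :=
  settle_split n _ x s.tree

lemma runs_replicate (n : ℕ) (s : State) (x N : ℕ) :
    split x (runs n s (List.replicate N x)).tree = split x s.tree ∧
    (runs n s (List.replicate N x)).cnt = Function.update s.cnt x (s.cnt x + N) := by
  induction N generalizing s with
  | zero => simp [runs]
  | succ N ih =>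
    rw [List.replicate_succ]
    have h1 : runs n s (x :: List.replicate N x) = runs n (step n s x) (List.replicate N x) := rfl
    rw [h1]
    obtain ⟨h2, h3⟩ := ih (step n s x)
    refine ⟨by rw [h2, step_split], ?_⟩
    rw [h3]
    simp only [step, Function.update_self, Function.update_idem]
    congr 1
    ring

/-- A long block of accesses to `x` moves `x` to the root. -/
lemma block {n : ℕ} (s : State) (x : ℕ) (h : IsSearchTree n s.tree) (hx : 1 ≤ x) (hxn : x ≤ n) :
    ∃ N, (runs n s (List.replicate N x)).tree
        = Tree.node (split x s.tree).1 x (split x s.tree).2 ∧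
      (∀ i, i ≠ x → (runs n s (List.replicate N x)).cnt i = s.cnt i) ∧
      ∑ i ∈ Finset.Icc 1 n, s.cnt i < (runs n s (List.replicate N x)).cnt x := by
  set S0 := ∑ i ∈ Finset.Icc 1 n, s.cnt i with hS0
  refine ⟨S0 + 1, ?_, ?_, ?_⟩
  · rw [List.replicate_succ', runs_append]
    set s1 := runs n s (List.replicate S0 x) with hs1
    obtain ⟨h1, h2⟩ := runs_replicate n s x S0
    rw [← hs1] at h1 h2
    have hs : IsSearchTree n s1.tree := runs_search _ h
    have h3 : (runs n s1 [x]).tree
        = (settle n (Function.update s1.cnt x (s1.cnt x + 1)) x s1.tree).1 := rfl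
    rw [h3, ← h1]
    set f := Function.update s1.cnt x (s1.cnt x + 1) with hf
    have hfx : f x = s.cnt x + S0 + 1 := by
      rw [hf, Function.update_self, h2, Function.update_self]
    have hfi : ∀ i, i ≠ x → f i = s.cnt i := by
      intro i hi
      rw [hf, Function.update_of_ne hi, h2, Function.update_of_ne hi]
    apply settle_dominating f x s1.tree hs
    · rw [hs, List.mem_range'_1]
      omega
    · have h4 : W f s1.tree = ∑ i ∈ Finset.Icc 1 n, f i := by
        have : Finset.Icc 1 n = (List.range' 1 n).toFinset := by
          ext a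
          simp only [Finset.mem_Icc, List.mem_toFinset, List.mem_range'_1]
          omega
        rw [W_eq, hs, this, List.sum_toFinset _ List.nodup_range']
      have h5 : ∑ i ∈ Finset.Icc 1 n, f i ≤ f x + S0 := by
        rw [← Finset.add_sum_erase _ _ (Finset.mem_Icc.2 ⟨hx, hxn⟩)]
        apply Nat.add_le_add_left
        calc ∑ i ∈ (Finset.Icc 1 n).erase x, f i
            = ∑ i ∈ (Finset.Icc 1 n).erase x, s.cnt i :=
              Finset.sum_congr rfl fun i hi => hfi i (Finset.ne_of_mem_erase hi)
          _ ≤ S0 := Finset.sum_le_sum_of_subset (Finset.erase_subset _ _)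
      omega
  · intro i hi
    rw [(runs_replicate n s x _).2, Function.update_of_ne hi]
  · rw [(runs_replicate n s x _).2, Function.update_self]
    omega

/-- The bad trees: keys `1, …, m + 3`, with `1` and `3` at depth `m + 1` as children of `2`. -/
def tgt : ℕ → Tree
  | 0 => Tree.node (Tree.node Tree.leaf 1 Tree.leaf) 2 (Tree.node Tree.leaf 3 Tree.leaf)
  | m + 1 => Tree.node (tgt m) (m + 4) Tree.leaf

lemma reach_zero {n : ℕ} (hn : 3 ≤ n) (s : State) (h : IsSearchTree n s.tree) :
    ∃ σ : List ℕ, (∀ x ∈ σ, 1 ≤ x ∧ x ≤ n) ∧
      (split 4 (runs n s σ).tree).1 = tgt 0 ∧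
      (runs n s σ).cnt 1 < (runs n s σ).cnt 3 ∧ (runs n s σ).cnt 3 ≤ (runs n s σ).cnt 2 := by
  obtain ⟨N1, h11, h12, h13⟩ := block s 1 h le_rfl (by omega)
  set s1 := runs n s (List.replicate N1 1) with hs1
  have hS1 : IsSearchTree n s1.tree := runs_search _ h
  obtain ⟨N2, h21, h22, h23⟩ := block s1 3 hS1 (by omega) hn
  set s2 := runs n s1 (List.replicate N2 3) with hs2
  have hS2 : IsSearchTree n s2.tree := runs_search _ hS1
  obtain ⟨N3, h31, h32, h33⟩ := block s2 2 hS2 (by omega) (by omega)
  set s3 := runs n s2 (List.replicate N3 2) with hs3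
  have hS3 : IsSearchTree n s3.tree := runs_search _ hS2
  have hrun : runs n s (List.replicate N1 1 ++ List.replicate N2 3 ++ List.replicate N3 2) = s3 := by
    rw [runs_append, runs_append]
  refine ⟨List.replicate N1 1 ++ List.replicate N2 3 ++ List.replicate N3 2, ?_, ?_⟩
  · intro x hx
    simp only [List.mem_append, List.mem_replicate] at hx
    omega
  rw [hrun]
  -- shape of the trees
  have hk1 : ∀ a ∈ inorder s.tree, 1 ≤ a := by
    intro a ha
    rw [h, List.mem_range'_1] at ha
    omega
  have e1 : (split 1 s.tree).1 = Tree.leaf := split_of_ge 1 _ h.srt hk1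
  set R := (split 1 s.tree).2 with hR
  rw [e1] at h11
  have sR := (srt_node.1 (h11 ▸ hS1.srt)).2
  have e2 : (split 3 s1.tree).1 = Tree.node Tree.leaf 1 (split 3 R).1 := by
    rw [h11, split_node, if_neg (by omega), if_pos (by omega)]
  have e2b : (split 3 s1.tree).2 = (split 3 R).2 := by
    rw [h11, split_node, if_neg (by omega), if_pos (by omega)]
  rw [e2, e2b] at h21
  set A := (split 3 R).1 with hA
  set B := (split 3 R).2 with hB
  have sA := srt_node.1 (h21 ▸ hS2.srt)
  have sA2 := srt_node.1 sA.1
  have kA : ∀ a ∈ inorder A, a = 2 := by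
    intro a ha
    have h1 := sA2.2.2.2 a ha
    have h2 := sA.2.2.1 a (by simp [inorder, ha])
    omega
  have kB := sA.2.2.2
  have e3 : (split 2 A).1 = Tree.leaf :=
    split_of_ge 2 A sA2.2.1 fun a ha => by rw [kA a ha]
  have e4 : (split 2 A).2 = Tree.leaf := by
    apply leaf_of_inorder
    intro a ha
    have h1 := (split_inorder 2 A sA2.2.1).2 a ha
    have h2 := kA a h1.1
    omega
  have e5 : split 2 s2.tree = (Tree.node Tree.leaf 1 Tree.leaf, Tree.node Tree.leaf 3 B) := by
    rw [h21, split_node, if_pos (by omega), split_node, if_neg (by omega), if_pos (by omega), e3,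
      e4]
  rw [e5] at h31
  have e6 : (split 4 B).1 = Tree.leaf :=
    split_of_ge 4 B sA.2.1 fun a ha => by have := kB a ha; omega
  refine ⟨?_, ?_, ?_⟩
  · rw [h31]
    simp only [split_node]
    rw [if_neg (by omega), if_pos (by omega), if_neg (by omega), if_pos (by omega), e6, tgt]
  · rw [h32 1 (by omega), h32 3 (by omega), h22 1 (by omega)]
    refine lt_of_le_of_lt ?_ h23
    exact Finset.single_le_sum (f := fun i => s1.cnt i) (fun i _ => Nat.zero_le _)
      (Finset.mem_Icc.2 ⟨le_rfl, by omega⟩)
  · rw [h32 3 (by omega)]
    refine le_trans ?_ h33.le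
    exact Finset.single_le_sum (f := fun i => s2.cnt i) (fun i _ => Nat.zero_le _)
      (Finset.mem_Icc.2 ⟨by omega, by omega⟩)

lemma reach {n : ℕ} (s : State) (h : IsSearchTree n s.tree) (m : ℕ) (hm : m + 3 ≤ n) :
    ∃ σ : List ℕ, (∀ x ∈ σ, 1 ≤ x ∧ x ≤ n) ∧
      (split (m + 4) (runs n s σ).tree).1 = tgt m ∧
      (runs n s σ).cnt 1 < (runs n s σ).cnt 3 ∧ (runs n s σ).cnt 3 ≤ (runs n s σ).cnt 2 := by
  induction m with
  | zero => exact reach_zero (by omega) s h
  | succ m ih =>
    obtain ⟨σ, hσ, h1, h2, h3⟩ := ih (by omega)
    set s1 := runs n s σ with hs1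
    have hS1 : IsSearchTree n s1.tree := runs_search _ h
    obtain ⟨N, h11, h12, h13⟩ := block s1 (m + 4) hS1 (by omega) (by omega)
    refine ⟨σ ++ List.replicate N (m + 4), ?_, ?_⟩
    · intro x hx
      simp only [List.mem_append, List.mem_replicate] at hx
      rcases hx with hx | hx
      · exact hσ x hx
      · omega
    rw [runs_append, ← hs1]
    set s2 := runs n s1 (List.replicate N (m + 4)) with hs2
    have hS2 : IsSearchTree n s2.tree := runs_search _ hS1
    rw [h1] at h11
    set R := (split (m + 4) s1.tree).2 with hR
    have sA := srt_node.1 (h11 ▸ hS2.srt)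
    refine ⟨?_, ?_, ?_⟩
    · rw [h11, split_node, if_neg (by omega), if_pos (by omega), tgt]
      simp only
      rw [split_of_ge _ R sA.2.1 fun a ha => by have := sA.2.2.2 a ha; omega]
    · rw [h12 1 (by omega), h12 3 (by omega)]
      exact h2
    · rw [h12 2 (by omega), h12 3 (by omega)]
      exact h3

/-! ### The second phase -/

lemma tgt_search (m : ℕ) : IsSearchTree (m + 3) (tgt m) := by
  unfold IsSearchTree
  induction m with
  | zero => rfl
  | succ m ih =>
    rw [tgt, inorder, ih, inorder]
    have h1 : List.range' 1 (m + 3 + 1) = List.range' 1 (m + 3) ++ [1 + (m + 3)] :=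
      List.range'_1_concat
    have h2 : m + 1 + 3 = m + 3 + 1 := by ring
    rw [h2, h1, Nat.add_comm 1 (m + 3)]

lemma depth_one (m : ℕ) : depth 1 (tgt m) = m + 1 := by
  induction m with
  | zero => rfl
  | succ m ih => rw [tgt, depth, if_pos (by omega), ih]

lemma depth_three (m : ℕ) : depth 3 (tgt m) = m + 1 := by
  induction m with
  | zero => rfl
  | succ m ih => rw [tgt, depth, if_pos (by omega), ih]

lemma settle_stuck {n : ℕ} {f : ℕ → ℕ} {x : ℕ} {T T' : Tree} (h : rotateOver x T = some T')
    (h2 : wpl n f T ≤ wpl n f T') : settle n f x T = (T, 0) := by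
  rw [settle]
  split
  · rfl
  · next T'' hT'' =>
    rw [h] at hT''
    injection hT'' with h3
    subst h3
    rw [if_neg (by omega)]

lemma tgt_node (m : ℕ) : ∃ l r, tgt m = Tree.node l (if m = 0 then 2 else m + 3) r := by
  cases m with
  | zero => exact ⟨_, _, rfl⟩
  | succ m => exact ⟨tgt m, Tree.leaf, by rw [tgt, if_neg (by omega)]⟩

lemma rotate_one (f : ℕ → ℕ) (m : ℕ) : ∃ T', rotateOver 1 (tgt m) = some T' ∧
    P f T' + f 1 = P f (tgt m) + f 2 + f 3 ∧ W f T' = W f (tgt m) := by
  induction m with
  | zero =>
    refine ⟨Tree.node Tree.leaf 1 (Tree.node Tree.leaf 2 (Tree.node Tree.leaf 3 Tree.leaf)), ?_⟩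
    refine ⟨by simp [rotateOver, tgt], ?_⟩
    simp only [tgt, P, W]
    constructor <;> ring
  | succ m ih =>
    obtain ⟨T', h1, h2, h3⟩ := ih
    obtain ⟨l, r, hlr⟩ := tgt_node m
    refine ⟨Tree.node T' (m + 4) Tree.leaf, ?_, ?_, ?_⟩
    · rw [tgt]
      rw [hlr] at h1 ⊢
      rw [rotateOver.eq_def]
      dsimp only
      rw [if_pos (by omega), if_neg (by split_ifs <;> omega), h1]
      rfl
    · simp only [tgt, P, W]
      omega
    · simp only [tgt, W]
      omega

lemma rotate_three (f : ℕ → ℕ) (m : ℕ) : ∃ T', rotateOver 3 (tgt m) = some T' ∧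
    P f T' + f 3 = P f (tgt m) + f 2 + f 1 ∧ W f T' = W f (tgt m) := by
  induction m with
  | zero =>
    refine ⟨Tree.node (Tree.node (Tree.node Tree.leaf 1 Tree.leaf) 2 Tree.leaf) 3 Tree.leaf, ?_⟩
    refine ⟨by simp [rotateOver, tgt], ?_⟩
    simp only [tgt, P, W]
    constructor <;> ring
  | succ m ih =>
    obtain ⟨T', h1, h2, h3⟩ := ih
    obtain ⟨l, r, hlr⟩ := tgt_node m
    refine ⟨Tree.node T' (m + 4) Tree.leaf, ?_, ?_, ?_⟩
    · rw [tgt]
      rw [hlr] at h1 ⊢
      rw [rotateOver.eq_def]
      dsimp only
      rw [if_pos (by omega), if_neg (by split_ifs <;> omega), h1]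
      rfl
    · simp only [tgt, P, W]
      omega
    · simp only [tgt, W]
      omega

lemma stuck_one {m : ℕ} {f : ℕ → ℕ} (h : f 1 ≤ f 2 + f 3) :
    settle (m + 3) f 1 (tgt m) = (tgt m, 0) := by
  obtain ⟨T', h1, h2, -⟩ := rotate_one f m
  apply settle_stuck h1
  have h4 : IsSearchTree (m + 3) T' := by
    unfold IsSearchTree
    rw [rotateOver_inorder _ _ _ h1]
    exact tgt_search m
  rw [wpl_eq f h4, wpl_eq f (tgt_search m)]
  omega

lemma stuck_three {m : ℕ} {f : ℕ → ℕ} (h : f 3 ≤ f 2 + f 1) :
    settle (m + 3) f 3 (tgt m) = (tgt m, 0) := by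
  obtain ⟨T', h1, h2, -⟩ := rotate_three f m
  apply settle_stuck h1
  have h4 : IsSearchTree (m + 3) T' := by
    unfold IsSearchTree
    rw [rotateOver_inorder _ _ _ h1]
    exact tgt_search m
  rw [wpl_eq f h4, wpl_eq f (tgt_search m)]
  omega

/-- the sequence `1, 3, 1, 3, …` -/
def alt : ℕ → List ℕ
  | 0 => []
  | j + 1 => 1 :: 3 :: alt j

lemma step_cnt (n : ℕ) (s : State) (x : ℕ) :
    (step n s x).cnt = Function.update s.cnt x (s.cnt x + 1) := rfl

lemma step_tree (n : ℕ) (s : State) (x : ℕ) : (step n s x).tree
    = (settle n (Function.update s.cnt x (s.cnt x + 1)) x s.tree).1 := rfl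

lemma step_cost (n : ℕ) (s : State) (x : ℕ) : (step n s x).cost
    = s.cost + (1 + depth x s.tree)
      + (settle n (Function.update s.cnt x (s.cnt x + 1)) x s.tree).2 := rfl

lemma second_phase (m j : ℕ) (s : State) (hT : s.tree = tgt m) (h13 : s.cnt 1 < s.cnt 3)
    (h32 : s.cnt 3 ≤ s.cnt 2 + s.cnt 1) :
    (runs (m + 3) s (alt j)).cost = s.cost + j * (2 * (m + 2)) := by
  induction j generalizing s with
  | zero => simp [alt, runs]
  | succ j ih =>
    have h1 : runs (m + 3) s (alt (j + 1))
        = runs (m + 3) (step (m + 3) (step (m + 3) s 1) 3) (alt j) := rfl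
    rw [h1]
    have hc0 : Function.update s.cnt 1 (s.cnt 1 + 1) 1
        ≤ Function.update s.cnt 1 (s.cnt 1 + 1) 2 + Function.update s.cnt 1 (s.cnt 1 + 1) 3 := by
      rw [Function.update_self, Function.update_of_ne (by omega), Function.update_of_ne (by omega)]
      omega
    have t1 : (step (m + 3) s 1).tree = tgt m := by
      rw [step_tree, hT, stuck_one hc0]
    have c1 : (step (m + 3) s 1).cost = s.cost + (m + 2) := by
      rw [step_cost, hT, stuck_one hc0, depth_one]
      ring
    have n11 : (step (m + 3) s 1).cnt 1 = s.cnt 1 + 1 := by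
      rw [step_cnt, Function.update_self]
    have n12 : (step (m + 3) s 1).cnt 2 = s.cnt 2 := by
      rw [step_cnt, Function.update_of_ne (by omega)]
    have n13 : (step (m + 3) s 1).cnt 3 = s.cnt 3 := by
      rw [step_cnt, Function.update_of_ne (by omega)]
    set s1 := step (m + 3) s 1 with hs1
    have hcond : Function.update s1.cnt 3 (s1.cnt 3 + 1) 3
        ≤ Function.update s1.cnt 3 (s1.cnt 3 + 1) 2 + Function.update s1.cnt 3 (s1.cnt 3 + 1) 1 := by
      rw [Function.update_self, Function.update_of_ne (by omega), Function.update_of_ne (by omega)]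
      omega
    have t2 : (step (m + 3) s1 3).tree = tgt m := by
      rw [step_tree, t1, stuck_three hcond]
    have c2 : (step (m + 3) s1 3).cost = s.cost + 2 * (m + 2) := by
      rw [step_cost, t1, stuck_three hcond, depth_three, c1]
      ring
    have n21 : (step (m + 3) s1 3).cnt 1 = s.cnt 1 + 1 := by
      rw [step_cnt, Function.update_of_ne (by omega), n11]
    have n22 : (step (m + 3) s1 3).cnt 2 = s.cnt 2 := by
      rw [step_cnt, Function.update_of_ne (by omega), n12]
    have n23 : (step (m + 3) s1 3).cnt 3 = s.cnt 3 + 1 := by
      rw [step_cnt, Function.update_self, n13]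
    rw [ih _ t2 (by omega) (by omega), c2]
    ring

/-! ### A good static tree -/

/-- right-going path on the keys `a, …, a + len - 1` -/
def chain : ℕ → ℕ → Tree
  | _, 0 => Tree.leaf
  | a, len + 1 => Tree.node Tree.leaf a (chain (a + 1) len)

lemma chain_inorder (a len : ℕ) : inorder (chain a len) = List.range' a len := by
  induction len generalizing a with
  | zero => rfl
  | succ len ih => rw [chain, inorder, ih, inorder, List.nil_append, List.range'_succ]

/-- static tree with `1` at the root and `3` as its right child -/
def good (m : ℕ) : Tree :=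
  Tree.node Tree.leaf 1 (Tree.node (Tree.node Tree.leaf 2 Tree.leaf) 3 (chain 4 m))

lemma good_search (m : ℕ) : IsSearchTree (m + 3) (good m) := by
  unfold IsSearchTree
  rw [good]
  simp only [inorder, chain_inorder, List.nil_append, List.cons_append]
  rw [List.range'_succ, List.range'_succ, List.range'_succ]

lemma static_alt (m j : ℕ) : costStatic (good m) (alt j) = 3 * j := by
  induction j with
  | zero => rfl
  | succ j ih =>
    have h1 : depth 1 (good m) = 0 := by simp [good, depth]
    have h3 : depth 3 (good m) = 1 := by simp [good, depth]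
    unfold costStatic at *
    rw [alt, List.map_cons, List.map_cons, List.sum_cons, List.sum_cons, ih, h1, h3]
    ring

lemma static_append (S : Tree) (σ τ : List ℕ) :
    costStatic S (σ ++ τ) = costStatic S σ + costStatic S τ := by
  simp [costStatic]

lemma optStatic_le {n : ℕ} {S : Tree} (hS : IsSearchTree n S) (σ : List ℕ) :
    optStatic n σ ≤ costStatic S σ := Nat.sInf_le ⟨S, hS, rfl⟩

lemma alt_mem {n : ℕ} (hn : 3 ≤ n) (j : ℕ) : ∀ x ∈ alt j, 1 ≤ x ∧ x ≤ n := by
  induction j with
  | zero => simp [alt]
  | succ j ih =>
    intro x hx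
    rw [alt, List.mem_cons, List.mem_cons] at hx
    rcases hx with rfl | rfl | hx
    · omega
    · omega
    · exact ih x hx

/-- **The WPL tree is not statically competitive.** Let `n ≥ 3` and let `T₀` be any initial search
tree on the keys `1, …, n`. If `c < 2 (n - 1) / 3`, then for every constant `a` there is an access
sequence on which the WPL tree costs more than `c` times the static optimum plus `a`. -/
theorem result (n : ℕ) (hn : 3 ≤ n) (T₀ : Tree) (hT₀ : IsSearchTree n T₀) (c : ℝ)
    (hc : c < 2 * ((n : ℝ) - 1) / 3) (a : ℝ) :
    ∃ σ : List ℕ, (∀ x ∈ σ, 1 ≤ x ∧ x ≤ n) ∧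
      c * (optStatic n σ : ℝ) + a < (costWPL n T₀ σ : ℝ) := by
  obtain ⟨m, rfl⟩ : ∃ m, n = m + 3 := ⟨n - 3, by omega⟩
  set s0 : State := ⟨fun _ => 0, T₀, 0⟩ with hs0
  obtain ⟨σ, hσ, h1, h2, h3⟩ := reach (n := m + 3) s0 hT₀ m le_rfl
  set s := runs (m + 3) s0 σ with hs
  have hS : IsSearchTree (m + 3) s.tree := runs_search _ hT₀
  have hT : s.tree = tgt m := by
    rw [← h1, split_of_lt]
    intro a ha
    rw [hS, List.mem_range'_1] at ha
    omega
  have hcost : ∀ j, costWPL (m + 3) T₀ (σ ++ alt j) = s.cost + j * (2 * (m + 2)) := by
    intro j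
    have : costWPL (m + 3) T₀ (σ ++ alt j) = (runs (m + 3) s0 (σ ++ alt j)).cost := rfl
    rw [this, runs_append, ← hs, second_phase m j s hT h2 (by omega)]
  have hopt : ∀ j, optStatic (m + 3) (σ ++ alt j) ≤ costStatic (good m) σ + 3 * j := by
    intro j
    refine (optStatic_le (good_search m) _).trans ?_
    rw [static_append, static_alt]
  set C0 := costStatic (good m) σ with hC0
  have hc' : 0 < 2 * ((m : ℝ) + 2) - 3 * max c 0 := by
    push_cast at hc
    rcases le_total c 0 with h | h
    · rw [max_eq_right h]
      have : (0 : ℝ) ≤ m := Nat.cast_nonneg m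
      linarith
    · rw [max_eq_left h]
      linarith
  obtain ⟨j, hj⟩ := exists_nat_gt ((max c 0 * C0 + a) / (2 * ((m : ℝ) + 2) - 3 * max c 0))
  rw [div_lt_iff₀ hc'] at hj
  refine ⟨σ ++ alt j, ?_, ?_⟩
  · intro x hx
    rcases List.mem_append.1 hx with hx | hx
    · exact hσ x hx
    · exact alt_mem (by omega) j x hx
  · rw [hcost j]
    have e1 : c * (optStatic (m + 3) (σ ++ alt j) : ℝ) ≤ max c 0 * (C0 + 3 * j) := by
      have e2 : (optStatic (m + 3) (σ ++ alt j) : ℝ) ≤ C0 + 3 * j := by exact_mod_cast hopt j
      calc c * (optStatic (m + 3) (σ ++ alt j) : ℝ)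
          ≤ max c 0 * (optStatic (m + 3) (σ ++ alt j) : ℝ) :=
            mul_le_mul_of_nonneg_right (le_max_left _ _) (Nat.cast_nonneg _)
        _ ≤ max c 0 * (C0 + 3 * j) := mul_le_mul_of_nonneg_left e2 (le_max_right _ _)
    push_cast
    have e3 : (0 : ℝ) ≤ s.cost := Nat.cast_nonneg _
    nlinarith [e1, hj, e3]

/-- The negated form of the question, word for word. -/
theorem not_static_competitive (c : ℝ) : ∃ (n : ℕ) (T₀ : Tree), IsSearchTree n T₀ ∧
    ∀ a : ℝ, ∃ σ : List ℕ, (∀ x ∈ σ, 1 ≤ x ∧ x ≤ n) ∧
      c * (optStatic n σ : ℝ) + a < (costWPL n T₀ σ : ℝ) := by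
  obtain ⟨m, hm⟩ := exists_nat_gt (3 * c / 2)
  refine ⟨m + 3, tgt m, tgt_search m, fun a => ?_⟩
  apply result (m + 3) (by omega) (tgt m) (tgt_search m) c _ a
  push_cast
  linarith

end Pool.Agent.Results.MP_037a8f_lc.WplNotStaticCompetitive
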